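import Mathlib
import Pool.Agent.H33.Fields

/-!
The Frechet-Urysohn property of compact subspaces of `C_p(X × K)`.
-/

open Set Filter Topology

namespace Pool.Agent.Results.MP_e70507_gt.FrechetUrysohn

/-- `C_p(X)`: continuous real functions on `X` as a subspace of the product `X → ℝ`. -/
abbrev Cp (X : Type*) [TopologicalSpace X] : Type _ := {f : X → ℝ // Continuous f}

theorem fu_iff {W T : Type*} [TopologicalSpace W] [TopologicalSpace T] {j : W → T}
    (hj : IsEmbedding j) : FrechetUrysohnSpace W ↔ ∀ A ⊆ range j, ∀ z ∈ range j, z ∈ closure A →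
      ∃ a : ℕ → T, (∀ n, a n ∈ A) ∧ Tendsto a atTop (𝓝 z) := by
  constructor
  · rintro h A hA _ ⟨w, rfl⟩ hz
    have hw : w ∈ closure (j ⁻¹' A) := by
      rwa [hj.isInducing.closure_eq_preimage_closure_image, image_preimage_eq_of_subset hA]
    obtain ⟨a, ha, hat⟩ := mem_closure_iff_seq_limit.1 hw
    exact ⟨j ∘ a, ha, (hj.continuous.tendsto w).comp hat⟩
  · intro h
    refine ⟨fun A z hz => ?_⟩
    rw [hj.isInducing.closure_eq_preimage_closure_image] at hz
    obtain ⟨a, ha, hat⟩ := h _ (image_subset_range _ _) _ (mem_range_self z) hz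
    choose b hb hba using ha
    refine ⟨b, hb, hj.isInducing.tendsto_nhds_iff.2 ?_⟩
    rwa [show j ∘ b = a from funext hba]

theorem result (X K : Type*) [TopologicalSpace X] [TopologicalSpace K] [CompactSpace K]
    (hX : ∀ L : Set (Cp X), IsCompact L → FrechetUrysohnSpace L) :
    ∀ B : Set (Cp (X × K)), IsCompact B → FrechetUrysohnSpace B := by
  intro B hB
  rw [fu_iff (IsEmbedding.subtypeVal.comp IsEmbedding.subtypeVal), range_comp,
    Subtype.range_coe]
  intro A hA z _ hz
  refine Pool.Agent.H33.Fields.fu_prod (fun L hL hLc => ?_) ?_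
    (hB.image continuous_subtype_val) hA hz
  · have h1 : Subtype.val '' (Subtype.val ⁻¹' L : Set (Cp X)) = L :=
      image_preimage_eq_of_subset (by rwa [Subtype.range_coe_subtype])
    have := hX (Subtype.val ⁻¹' L) (Subtype.isCompact_iff.2 (h1.symm ▸ hLc))
    rwa [fu_iff (IsEmbedding.subtypeVal.comp IsEmbedding.subtypeVal), range_comp,
      Subtype.range_coe, h1] at this
  · rintro _ ⟨f, -, rfl⟩
    exact f.2

end Pool.Agent.Results.MP_e70507_gt.FrechetUrysohn
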