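import Mathlib
import Pool.Agent.H33.Fields

/-!
Countable tightness of compact subspaces of `C_p(X × K)`.
-/

open Set Topology

namespace Pool.Agent.Results.MP_e70507_gt.Tightness

/-- `C_p(X)`: continuous real functions on `X` as a subspace of the product `X → ℝ`. -/
abbrev Cp (X : Type*) [TopologicalSpace X] : Type _ := {f : X → ℝ // Continuous f}

/-- countable tightness -/
def CountablyTight (Z : Type*) [TopologicalSpace Z] : Prop :=
  ∀ (A : Set Z) (z : Z), z ∈ closure A → ∃ B ⊆ A, B.Countable ∧ z ∈ closure B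

theorem tight_iff {W T : Type*} [TopologicalSpace W] [TopologicalSpace T] {j : W → T}
    (hj : IsEmbedding j) : CountablyTight W ↔ ∀ A ⊆ range j, ∀ z ∈ range j, z ∈ closure A →
      ∃ C ⊆ A, C.Countable ∧ z ∈ closure C := by
  constructor
  · rintro h A hA _ ⟨w, rfl⟩ hz
    obtain ⟨B, hB, hBc, hw⟩ := h (j ⁻¹' A) w (by
      rwa [hj.isInducing.closure_eq_preimage_closure_image, image_preimage_eq_of_subset hA])
    refine ⟨j '' B, image_subset_iff.2 hB, hBc.image _, ?_⟩
    rwa [hj.isInducing.closure_eq_preimage_closure_image] at hw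
  · intro h A z hz
    rw [hj.isInducing.closure_eq_preimage_closure_image] at hz
    obtain ⟨C, hC, hCc, hzC⟩ := h _ (image_subset_range _ _) _ (mem_range_self z) hz
    obtain ⟨B, hB, hBc, rfl⟩ :=
      Pool.Agent.H33.Fields.exists_countable_subset_image_eq_of_countable hC hCc
    refine ⟨B, hB, hBc, ?_⟩
    rwa [hj.isInducing.closure_eq_preimage_closure_image]

theorem result (X K : Type*) [TopologicalSpace X] [TopologicalSpace K] [CompactSpace K]
    (hX : ∀ L : Set (Cp X), IsCompact L → CountablyTight L) :
    ∀ B : Set (Cp (X × K)), IsCompact B → CountablyTight B := by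
  intro B hB
  rw [tight_iff (IsEmbedding.subtypeVal.comp IsEmbedding.subtypeVal), range_comp,
    Subtype.range_coe]
  intro A hA z _ hz
  refine Pool.Agent.H33.Fields.tight_prod (fun L hL hLc => ?_) ?_
    (hB.image continuous_subtype_val) hA hz
  · have h1 : Subtype.val '' (Subtype.val ⁻¹' L : Set (Cp X)) = L :=
      image_preimage_eq_of_subset (by rwa [Subtype.range_coe_subtype])
    have := hX (Subtype.val ⁻¹' L) (Subtype.isCompact_iff.2 (h1.symm ▸ hLc))
    rwa [tight_iff (IsEmbedding.subtypeVal.comp IsEmbedding.subtypeVal), range_comp,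
      Subtype.range_coe, h1] at this
  · rintro _ ⟨f, -, rfl⟩
    exact f.2

end Pool.Agent.Results.MP_e70507_gt.Tightness
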